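import Mathlib

/-!
Project MO, part REG: radical zero and finite-dimensional Homs give von Neumann regular
(Mathlib only).
-/

set_option autoImplicit false

open CategoryTheory

namespace Pool.Agent.W119.MO

theorem ring_part {B : Type} [Ring B] [Module ℚ B] (hfin : Module.Finite ℚ B)
    (hrad : ∀ b : B, (∀ c : B, ∃ n : ℕ, (c * b) ^ n = 0) → b = 0) (F : B) :
    ∃ G : B, F * (G * F) = F := by
  let : Algebra ℚ B := Algebra.ofModule
    (fun r x y => by
      have := map_rat_smul (AddMonoidHom.mulRight y) r x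
      simpa using this)
    (fun r x y => by
      have := map_rat_smul (AddMonoidHom.mulLeft x) r y
      simpa using this)
  have : IsArtinianRing B := IsArtinianRing.of_finite ℚ B
  have hnil : IsNilpotent (Ideal.jacobson (⊥ : Ideal B)) := IsArtinianRing.isNilpotent_jacobson_bot
  have hjac : Ring.jacobson B = ⊥ := by
    rw [eq_bot_iff]
    intro b hb
    rw [Ideal.mem_bot]
    apply hrad
    intro c
    obtain ⟨n, hn⟩ := hnil
    refine ⟨n, ?_⟩
    have h1 : c * b ∈ Ideal.jacobson (⊥ : Ideal B) := by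
      rw [Ideal.jacobson_bot]
      exact Ideal.mul_mem_left _ _ hb
    have h2 := Ideal.pow_mem_pow h1 n
    rw [hn] at h2
    simpa using h2
  have : IsSemisimpleRing B := IsArtinianRing.isSemisimpleRing_iff_jacobson.mpr hjac
  obtain ⟨e, he, hI⟩ := IsSemisimpleRing.ideal_eq_span_idempotent (Ideal.span {F})
  have hF : F ∈ Ideal.span {e} := by
    rw [← hI]
    exact Ideal.subset_span rfl
  have he2 : e ∈ Ideal.span {F} := by
    rw [hI]
    exact Ideal.subset_span rfl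
  obtain ⟨r, hr⟩ := Submodule.mem_span_singleton.1 hF
  obtain ⟨G, hG⟩ := Submodule.mem_span_singleton.1 he2
  rw [smul_eq_mul] at hr hG
  refine ⟨G, ?_⟩
  rw [hG, ← hr, mul_assoc, he]

theorem cat_part {𝒟 : Type 1} [Category.{0} 𝒟] [Preadditive 𝒟] [Limits.HasBinaryBiproducts 𝒟]
    (hfin : ∀ X Y : 𝒟, ∃ _ : Module ℚ (X ⟶ Y), Module.Finite ℚ (X ⟶ Y))
    (hrad : ∀ {X Y : 𝒟} (f : X ⟶ Y), (∀ g : Y ⟶ X, ∃ n : ℕ, (show End X from f ≫ g) ^ n = 0) →
      f = 0) {X Y : 𝒟} (f : X ⟶ Y) : ∃ g : Y ⟶ X, f ≫ g ≫ f = f := by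
  obtain ⟨hm, hm2⟩ := hfin (X ⊞ Y) (X ⊞ Y)
  let hm' : Module ℚ (End (X ⊞ Y)) := hm
  have hm2' : Module.Finite ℚ (End (X ⊞ Y)) := hm2
  obtain ⟨G, hG⟩ := ring_part (B := End (X ⊞ Y)) hm2'
    (fun b hb => hrad (X := X ⊞ Y) (Y := X ⊞ Y) b (fun g => hb g))
    (show End (X ⊞ Y) from Limits.biprod.fst ≫ f ≫ Limits.biprod.inr)
  have hG' : (Limits.biprod.fst ≫ f ≫ Limits.biprod.inr) ≫ (show X ⊞ Y ⟶ X ⊞ Y from G) ≫
      (Limits.biprod.fst ≫ f ≫ Limits.biprod.inr) =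
      (Limits.biprod.fst ≫ f ≫ Limits.biprod.inr : X ⊞ Y ⟶ X ⊞ Y) := by
    rw [← Category.assoc]
    exact hG
  refine ⟨Limits.biprod.inr ≫ (show X ⊞ Y ⟶ X ⊞ Y from G) ≫ Limits.biprod.fst, ?_⟩
  have h1 := congrArg (fun h => Limits.biprod.inl ≫ h ≫ Limits.biprod.snd) hG'
  simpa using h1

end Pool.Agent.W119.MO
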