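import Pool.Agent.W543.MO.Parts
import Pool.Agent.W119.MO.RegCore

/-!
Project MO, part REG.
-/

set_option autoImplicit false

open CategoryTheory

namespace Pool.Agent.W119.MO

theorem t_REG : Pool.Agent.W543.MO.REG_stmt := by
  intro 𝒟 _ _ _ hfin hrad X Y f
  exact cat_part hfin (fun f h => hrad f h) f

end Pool.Agent.W119.MO
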